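import Pool.Agent.H44.KR.Targets

/-!
# Kernels of canonical maps for structures with local completions: zigzag cycles (CYC)
-/

set_option autoImplicit false

namespace Pool.Agent.H19.KR

open Pool.Agent.H68.BP Pool.Agent.H58.SF Pool.Agent.H53.NR Pool.Agent.H53.GM Pool.Agent.H44.KR
open Pool.Agent.H57.LCI (LocalCompletions Pre Realizes)
open Pool.Agent.H57.AR (tp ty)
open Pool.Agent.H57.EQ (Cx)
open Function
open Classical

section

variable {V W Z : Type} {ρ : Sig} {𝔹 : Str ρ V}

theorem tp_iff {x y : W → V} : tp 𝔹 x = tp 𝔹 y ↔ (∀ a b, x a = x b ↔ y a = y b) ∧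
    ∀ (l : Fin ρ.m) (z : Fin (ρ.ar l) → W),
      𝔹 l (fun i => x (z i)) ↔ 𝔹 l (fun i => y (z i)) := by
  constructor
  · intro h
    refine ⟨fun a b => ?_, fun l z => ?_⟩
    · exact iff_of_eq (congrFun (congrFun (congrArg Prod.fst h) a) b)
    · exact iff_of_eq (congrFun (congrFun (congrArg Prod.snd h) l) z)
  · rintro ⟨h1, h2⟩
    refine Prod.ext ?_ ?_
    · funext a b
      exact propext (h1 a b)
    · funext l z
      exact propext (h2 l z)

theorem tp_comp {x y : W → V} (h : tp 𝔹 x = tp 𝔹 y) (s : Z → W) :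
    tp 𝔹 (fun i => x (s i)) = tp 𝔹 (fun i => y (s i)) := by
  rw [tp_iff] at *
  exact ⟨fun a b => h.1 (s a) (s b), fun l z => h.2 l fun i => s (z i)⟩

theorem tp_ty {x y : W → V} (h : tp 𝔹 x = tp 𝔹 y) (a : W) : ty 𝔹 (x a) = ty 𝔹 (y a) := by
  rw [tp_iff] at h
  funext l
  exact propext (h.2 l fun _ => a)

theorem pair_eta (x : Fin 2 → V) : ![x 0, x 1] = x := by
  funext i
  fin_cases i <;> rfl

theorem tp_swap {x y : V} {p : Fin 2 → V} (h : tp 𝔹 ![x, y] = tp 𝔹 ![p 1, p 0]) :
    tp 𝔹 ![y, x] = tp 𝔹 p := by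
  have h1 := tp_comp h (fun i : Fin 2 => if i = 0 then 1 else 0)
  have e1 : (fun i : Fin 2 => (![x, y] : Fin 2 → V) (if i = 0 then 1 else 0)) = ![y, x] := by
    funext i
    fin_cases i <;> rfl
  have e2 : (fun i : Fin 2 => (![p 1, p 0] : Fin 2 → V) (if i = 0 then 1 else 0)) = p := by
    funext i
    fin_cases i <;> rfl
  rw [e1, e2] at h1
  exact h1

/-- the structure of an edge -/
noncomputable def edS (𝔹 : Str ρ V) (P : Fin 2 → V) (a : W) : Str ρ W :=
  fun l z => 𝔹 l (fun i => P (if z i = a then 0 else 1))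

/-- realization of an edge -/
theorem rz_edge {a b : W} (hab : a ≠ b) {P : Fin 2 → V} (hP : P 0 ≠ P 1) (f : W → V) :
    tp 𝔹 ![f a, f b] = tp 𝔹 P ↔
      Rz 𝔹 id (edS 𝔹 P a) {x | x = a ∨ x = b} f := by
  constructor
  · intro h
    rw [tp_iff] at h
    have hfab : f a ≠ f b := fun h1 => hP ((h.1 0 1).1 h1)
    refine ⟨fun x hx y hy hxy => ?_, fun l z hz => ?_⟩
    · rcases hx with hx | hx <;> rcases hy with hy | hy <;> rw [hx, hy] at hxy ⊢
      · exact absurd hxy hfab
      · exact absurd hxy.symm hfab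
    · have h1 := h.2 l (fun i => if z i = a then 0 else 1)
      have e : (fun i => (![f a, f b] : Fin 2 → V) (if z i = a then 0 else 1)) =
          fun i => f (z i) := by
        funext i
        by_cases hi : z i = a
        · rw [if_pos hi, hi]
          rfl
        · rw [if_neg hi, (hz i).resolve_left hi]
          rfl
      rw [e] at h1
      exact h1
  · rintro ⟨h1, h2⟩
    have hfab : f a ≠ f b := fun h3 => hab (h1 a (Or.inl rfl) b (Or.inr rfl) h3)
    rw [tp_iff]
    refine ⟨fun i j => ?_, fun l z => ?_⟩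
    · fin_cases i <;> fin_cases j
      · exact ⟨fun _ => rfl, fun _ => rfl⟩
      · exact ⟨fun h => absurd h hfab, fun h => absurd h hP⟩
      · exact ⟨fun h => absurd h.symm hfab, fun h => absurd h.symm hP⟩
      · exact ⟨fun _ => rfl, fun _ => rfl⟩
    · have h3 := h2 l (fun i => if z i = 0 then a else b) (fun i => by
        by_cases hi : z i = 0
        · rw [if_pos hi]
          exact Or.inl rfl
        · rw [if_neg hi]
          exact Or.inr rfl)
      have e1 : (fun i => f (if z i = 0 then a else b)) =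
          fun i => (![f a, f b] : Fin 2 → V) (z i) := by
        funext i
        by_cases hi : z i = 0
        · rw [if_pos hi, hi]
          rfl
        · have hi' : z i = 1 := by
            have := (z i).isLt
            apply Fin.ext
            have h4 : (z i : ℕ) ≠ 0 := fun h5 => hi (Fin.ext h5)
            show (z i : ℕ) = 1
            omega
          rw [if_neg hi, hi']
          rfl
      have e2 : (fun i => P (if (id (if z i = 0 then a else b)) = a then 0 else 1)) =
          fun i => P (z i) := by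
        funext i
        by_cases hi : z i = 0
        · rw [if_pos hi, hi]
          exact congrArg P (if_pos rfl)
        · have hi' : z i = 1 := by
            have := (z i).isLt
            apply Fin.ext
            have h4 : (z i : ℕ) ≠ 0 := fun h5 => hi (Fin.ext h5)
            show (z i : ℕ) = 1
            omega
          rw [if_neg hi, hi']
          exact congrArg P (if_neg (Ne.symm hab))
      rw [e1] at h3
      rw [h3, ← e2]
      exact Iff.rfl

/-- paths -/
theorem path_ex (hA : Amg 𝔹) (P : ℕ → Fin 2 → V) (t0 : Fin ρ.m → Prop)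
    (ht : ∀ k i, ty 𝔹 (P k i) = t0) : ∃ g : ℕ → V, (∀ k, ty 𝔹 (g k) = t0) ∧
      ∀ k, tp 𝔹 ![g k, g (k + 1)] = tp 𝔹 (P k) := by
  have hstep : ∀ (k : ℕ) (x : {x : V // ty 𝔹 x = t0}), ∃ y : {x : V // ty 𝔹 x = t0},
      tp 𝔹 ![x.1, y.1] = tp 𝔹 (P k) := by
    rintro k ⟨x, hx⟩
    obtain ⟨x', h1, h2, -⟩ := hA (Fin 2) {0} (P k) (fun _ => x) ∅ (by
      refine ⟨fun a ha b hb => ?_, fun l z hz => ?_⟩
      · rw [Set.mem_singleton_iff] at ha hb
        rw [ha, hb]
        exact ⟨fun _ => rfl, fun _ => rfl⟩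
      · have e : (fun i => P k (z i)) = fun _ => P k 0 := by
          funext i
          rw [Set.mem_singleton_iff.1 (hz i)]
        rw [e]
        have h3 := congrFun ((ht k 0).trans hx.symm) l
        exact iff_of_eq h3)
    have h4 : ty 𝔹 (x' 1) = t0 := by
      rw [tp_ty h1 1]
      exact ht k 1
    refine ⟨⟨x' 1, h4⟩, ?_⟩
    have h5 : x = x' 0 := (h2 0 rfl).symm
    show tp 𝔹 ![x, x' 1] = _
    rw [h5, pair_eta, h1]
  choose nx hnx using hstep
  obtain ⟨g, hg⟩ : ∃ g : ℕ → {x : V // ty 𝔹 x = t0}, ∀ k, g (k + 1) = nx k (g k) :=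
    ⟨fun k => Nat.rec ⟨P 0 0, ht 0 0⟩ (fun k x => nx k x) k, fun k => rfl⟩
  refine ⟨fun k => (g k).1, fun k => (g k).2, fun k => ?_⟩
  show tp 𝔹 ![(g k).1, (g (k + 1)).1] = _
  rw [hg]
  exact hnx k (g k)

theorem cyc_core (hA : Amg 𝔹) (N : ℕ) (hL : LcN 𝔹 N) (n : ℕ) (hn : N < n) (h2 : 2 ≤ n)
    (P : ℕ → Fin 2 → V) (t0 : Fin ρ.m → Prop) (hne : ∀ k, P k 0 ≠ P k 1)
    (ht : ∀ k i, ty 𝔹 (P k i) = t0) : ∃ f : ℕ → V,
      (∀ k, k + 1 < n → tp 𝔹 ![f k, f (k + 1)] = tp 𝔹 (P k)) ∧
      tp 𝔹 ![f (n - 1), f 0] = tp 𝔹 (P (n - 1)) := by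
  obtain ⟨nx, hnx⟩ : ∃ nx : Fin n → Fin n, ∀ a : Fin n,
      (nx a : ℕ) = if (a : ℕ) + 1 = n then (0 : ℕ) else (a : ℕ) + 1 :=
    ⟨fun a => ⟨if (a : ℕ) + 1 = n then (0 : ℕ) else (a : ℕ) + 1, by
      have := a.isLt
      split_ifs <;> omega⟩, fun a => rfl⟩
  have hnxne : ∀ a, a ≠ nx a := by
    intro a h
    have h1 := hnx a
    rw [← h] at h1
    split_ifs at h1 <;> omega
  obtain ⟨g, hg1, hg2⟩ := path_ex hA (fun k => P (k % n)) t0 (fun k i => ht _ _)
  obtain ⟨f, hf⟩ := hL (Fin n) (Fin n) (fun a => {x | x = a ∨ x = nx a})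
    (fun a => edS 𝔹 (P a) a) (by
      intro U hU
      obtain ⟨v, hv⟩ : ∃ v : Fin n, v ∉ U := by
        by_contra hcon
        have h3 : U = Finset.univ := by
          rw [Finset.eq_univ_iff_forall]
          intro v
          by_contra hv
          exact hcon ⟨v, hv⟩
        rw [h3, Finset.card_univ, Fintype.card_fin] at hU
        omega
      refine ⟨fun x => g (if v < x then (x : ℕ) else x + n), fun a => ?_⟩
      by_cases hboth : a ∈ U ∧ nx a ∈ U
      · -- the edge is realized
        have hav : a ≠ v := fun h => hv (h ▸ hboth.1)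
        have hnv : nx a ≠ v := fun h => hv (h ▸ hboth.2)
        have h3 : tp 𝔹 ![g (if v < a then (a : ℕ) else a + n),
            g (if v < nx a then (nx a : ℕ) else nx a + n)] = tp 𝔹 (P a) := by
          have hav' : (a : ℕ) ≠ v := fun h => hav (Fin.ext h)
          have hnv' : (nx a : ℕ) ≠ v := fun h => hnv (Fin.ext h)
          have hva : v < a ↔ (v : ℕ) < a := Fin.lt_def
          have hvn : v < nx a ↔ (v : ℕ) < nx a := Fin.lt_def
          have hx := hnx a
          have haN := a.isLt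
          have hvN := v.isLt
          have key : ∃ k : ℕ, (if v < a then (a : ℕ) else a + n) = k ∧
              (if v < nx a then (nx a : ℕ) else nx a + n) = k + 1 ∧ k % n = a := by
            by_cases h4 : v < a
            · refine ⟨a, if_pos h4, ?_, Nat.mod_eq_of_lt haN⟩
              rw [hva] at h4
              by_cases h5 : (a : ℕ) + 1 = n
              · rw [if_pos h5] at hx
                rw [if_neg (by rw [hvn, hx]; omega), hx, zero_add, h5]
              · rw [if_neg h5] at hx
                rw [if_pos (by rw [hvn, hx]; omega), hx]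
            · refine ⟨a + n, if_neg h4, ?_, by rw [Nat.add_mod_right, Nat.mod_eq_of_lt haN]⟩
              rw [hva] at h4
              by_cases h5 : (a : ℕ) + 1 = n
              · omega
              · rw [if_neg h5] at hx
                rw [if_neg (by rw [hvn, hx]; omega), hx]
                omega
          obtain ⟨k, hk1, hk2, hk3⟩ := key
          rw [hk1, hk2]
          have h6 := hg2 k
          rw [hk3] at h6
          exact h6
        have h7 := (rz_edge (hnxne a) (hne a)
          (fun x : Fin n => g (if v < x then (x : ℕ) else x + n))).1 h3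
        exact ⟨fun x hx y hy hxy => h7.1 x hx.1 y hy.1 hxy,
          fun l z hz => h7.2 l z fun i => (hz i).1⟩
      · -- a single vertex
        have hsub : ∃ w, ∀ x, (x = a ∨ x = nx a) → x ∈ U → x = w := by
          by_cases ha : a ∈ U
          · have hna : nx a ∉ U := fun h => hboth ⟨ha, h⟩
            refine ⟨a, fun x hx hxU => ?_⟩
            rcases hx with hx | hx
            · exact hx
            · rw [hx] at hxU
              exact absurd hxU hna
          · refine ⟨nx a, fun x hx hxU => ?_⟩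
            rcases hx with hx | hx
            · rw [hx] at hxU
              exact absurd hxU ha
            · exact hx
        obtain ⟨w, hw⟩ := hsub
        refine ⟨fun x hx y hy _ => ?_, fun l z hz => ?_⟩
        · exact (hw x hx.1 hx.2).trans (hw y hy.1 hy.2).symm
        · have hzw : ∀ i, z i = w := fun i => hw (z i) (hz i).1 (hz i).2
          have e1 : (fun i => g (if v < z i then (z i : ℕ) else z i + n)) =
              fun _ => g (if v < w then (w : ℕ) else w + n) := by
            funext i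
            rw [hzw i]
          have h8 : ∀ c : Fin 2, 𝔹 l (fun _ => g (if v < w then (w : ℕ) else w + n)) =
              𝔹 l (fun _ => P a c) := fun c =>
            congrFun ((hg1 (if v < w then (w : ℕ) else w + n)).trans (ht a c).symm) l
          rw [e1]
          have e2 : edS 𝔹 (P a) a l (fun i => id (z i)) =
              edS 𝔹 (P a) a l (fun _ => w) := by
            congr 1
            funext i
            exact hzw i
          rw [e2]
          exact iff_of_eq (h8 _))
  have hf' : ∀ a, tp 𝔹 ![f a, f (nx a)] = tp 𝔹 (P a) := fun a =>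
    (rz_edge (hnxne a) (hne a) f).2 (hf a)
  have hv : ∀ k, k < n → (fun k : ℕ => if h : k < n then f ⟨k, h⟩ else f ⟨0, by omega⟩) k =
      if h : k < n then f ⟨k, h⟩ else f ⟨0, by omega⟩ := fun k _ => rfl
  refine ⟨fun k => if h : k < n then f ⟨k, h⟩ else f ⟨0, by omega⟩, fun k hk => ?_, ?_⟩
  · have hk0 : k < n := by omega
    have h3 := hf' ⟨k, hk0⟩
    have h4 : nx ⟨k, hk0⟩ = ⟨k + 1, hk⟩ := by
      apply Fin.ext
      rw [hnx]
      exact if_neg (by show k + 1 ≠ n; omega)
    rw [h4] at h3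
    simp only [dif_pos hk0, dif_pos hk]
    exact h3
  · have hn1 : n - 1 < n := by omega
    have hn0 : 0 < n := by omega
    have h3 := hf' ⟨n - 1, hn1⟩
    have h4 : nx ⟨n - 1, hn1⟩ = ⟨0, hn0⟩ := by
      apply Fin.ext
      rw [hnx]
      exact if_pos (by show n - 1 + 1 = n; omega)
    rw [h4] at h3
    simp only [dif_pos hn1, dif_pos hn0]
    exact h3

/-- the vertices can be made different -/
theorem cyc_inj (hA : Amg 𝔹) (n : ℕ) (h2 : 2 ≤ n) (P : ℕ → Fin 2 → V)
    (hne : ∀ k, P k 0 ≠ P k 1) (f₀ : ℕ → V)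
    (h1 : ∀ k, k + 1 < n → tp 𝔹 ![f₀ k, f₀ (k + 1)] = tp 𝔹 (P k))
    (h1' : tp 𝔹 ![f₀ (n - 1), f₀ 0] = tp 𝔹 (P (n - 1))) : ∀ j : ℕ, j + 2 ≤ n →
    ∃ f : ℕ → V, (∀ k, k + 1 < n → tp 𝔹 ![f k, f (k + 1)] = tp 𝔹 (P k)) ∧
      tp 𝔹 ![f (n - 1), f 0] = tp 𝔹 (P (n - 1)) ∧
      ∀ i, 1 ≤ i → i ≤ j → ∀ i', i' < n → i' ≠ i → f i ≠ f i' := by
  intro j
  induction j with
  | zero =>
    intro _
    exact ⟨f₀, h1, h1', fun i hi hi' => by omega⟩
  | succ j ih =>
    intro hj
    obtain ⟨f, hf1, hf2, hf3⟩ := ih (by omega)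
    have hd : ∀ k, k + 1 < n → f k ≠ f (k + 1) := by
      intro k hk h
      have h3 := hf1 k hk
      rw [tp_iff] at h3
      exact hne k ((h3.1 0 1).1 h)
    obtain ⟨x', hx1, hx2, hx3⟩ := hA (Fin 3) {0, 2} ![f j, f (j + 1), f (j + 2)]
      ![f j, f (j + 1), f (j + 2)] ((Finset.range n).image f)
      ⟨fun _ _ _ _ => Iff.rfl, fun _ _ _ => Iff.rfl⟩
    have hx0 : x' 0 = f j := hx2 0 (Or.inl rfl)
    have hx2' : x' 2 = f (j + 2) := hx2 2 (Or.inr rfl)
    have hnew : ∀ i, i < n → x' 1 ≠ f i := by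
      intro i hi h
      obtain ⟨a, ha, h3⟩ := hx3 1 (by
        rw [h]
        exact Finset.mem_image_of_mem f (Finset.mem_range.2 hi))
      rw [tp_iff] at hx1
      have h4 := (hx1.1 1 a).1 h3
      rcases ha with ha | ha
      · rw [ha] at h4
        exact hd j (by omega) h4.symm
      · rw [ha] at h4
        exact hd (j + 1) (by omega) h4
    obtain ⟨f', hf'⟩ : ∃ f' : ℕ → V, f' = Function.update f (j + 1) (x' 1) := ⟨_, rfl⟩
    have e1 : f' (j + 1) = x' 1 := by
      rw [hf']
      exact Function.update_self _ _ _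
    have e2 : ∀ i, i ≠ j + 1 → f' i = f i := by
      intro i hi
      rw [hf']
      exact Function.update_of_ne hi _ _
    refine ⟨f', fun k hk => ?_, ?_, fun i hi hi' i' hi'n hne' => ?_⟩
    · by_cases hk1 : k = j
      · rw [hk1, e1, e2 j (by omega), ← hf1 j (by omega)]
        have h5 := tp_comp hx1 (![0, 1] : Fin 2 → Fin 3)
        have e3 : (fun i : Fin 2 => x' ((![0, 1] : Fin 2 → Fin 3) i)) = ![f j, x' 1] := by
          funext i
          fin_cases i
          · exact hx0
          · rfl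
        have e4 : (fun i : Fin 2 => (![f j, f (j + 1), f (j + 2)] : Fin 3 → V)
            ((![0, 1] : Fin 2 → Fin 3) i)) = ![f j, f (j + 1)] := by
          funext i
          fin_cases i <;> rfl
        rw [e3, e4] at h5
        exact h5
      · by_cases hk2 : k = j + 1
        · rw [hk2, e1, e2 (j + 1 + 1) (by omega), ← hf1 (j + 1) (by omega)]
          have h5 := tp_comp hx1 (![1, 2] : Fin 2 → Fin 3)
          have e3 : (fun i : Fin 2 => x' ((![1, 2] : Fin 2 → Fin 3) i)) =
              ![x' 1, f (j + 1 + 1)] := by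
            funext i
            fin_cases i
            · rfl
            · exact hx2'
          have e4 : (fun i : Fin 2 => (![f j, f (j + 1), f (j + 2)] : Fin 3 → V)
              ((![1, 2] : Fin 2 → Fin 3) i)) = ![f (j + 1), f (j + 1 + 1)] := by
            funext i
            fin_cases i <;> rfl
          rw [e3, e4] at h5
          exact h5
        · rw [e2 k hk2, e2 (k + 1) (by omega)]
          exact hf1 k hk
    · rw [e2 (n - 1) (by omega), e2 0 (by omega)]
      exact hf2
    · by_cases hij : i = j + 1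
      · rw [hij, e1, e2 i' (by omega)]
        exact hnew i' hi'n
      · rw [e2 i hij]
        by_cases hij' : i' = j + 1
        · rw [hij', e1]
          exact (hnew i (by omega)).symm
        · rw [e2 i' hij']
          exact hf3 i hi (by omega) i' hi'n hne'

end

theorem pf_CYC : Pool.Agent.H44.KR.T_CYC := by
  intro V ρ 𝔹 hB N hL
  refine ⟨N + 1, by omega, fun p q hp hq ht1 ht2 ht3 => ?_⟩
  obtain ⟨n, hn⟩ : ∃ n, n = 2 * (N + 1) + 2 := ⟨_, rfl⟩
  obtain ⟨P, hP⟩ : ∃ P : ℕ → Fin 2 → V, P = fun k => if k = n - 1 then ![q 1, q 0] else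
    if k % 2 = 0 then p else ![p 1, p 0] := ⟨_, rfl⟩
  have hP1 : P (n - 1) = ![q 1, q 0] := by
    rw [hP]
    exact if_pos rfl
  have hP2 : ∀ k, k ≠ n - 1 → k % 2 = 0 → P k = p := by
    intro k hk hk'
    rw [hP]
    show (if k = n - 1 then ![q 1, q 0] else if k % 2 = 0 then p else ![p 1, p 0]) = p
    rw [if_neg hk, if_pos hk']
  have hP3 : ∀ k, k ≠ n - 1 → k % 2 ≠ 0 → P k = ![p 1, p 0] := by
    intro k hk hk'
    rw [hP]
    show (if k = n - 1 then ![q 1, q 0] else if k % 2 = 0 then p else ![p 1, p 0]) = _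
    rw [if_neg hk, if_neg hk']
  have hcases : ∀ k, P k = ![q 1, q 0] ∨ P k = p ∨ P k = ![p 1, p 0] := by
    intro k
    by_cases h1 : k = n - 1
    · rw [h1]
      exact Or.inl hP1
    · by_cases h2 : k % 2 = 0
      · exact Or.inr (Or.inl (hP2 k h1 h2))
      · exact Or.inr (Or.inr (hP3 k h1 h2))
  have hne : ∀ k, P k 0 ≠ P k 1 := by
    intro k
    rcases hcases k with h | h | h <;> rw [h]
    · exact hq.symm
    · exact hp
    · exact hp.symm
  have ht : ∀ k i, ty 𝔹 (P k i) = ty 𝔹 (p 0) := by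
    intro k i
    rcases hcases k with h | h | h <;> rw [h] <;> fin_cases i
    · exact ht3
    · exact ht2
    · rfl
    · exact ht1
    · exact ht1
    · rfl
  obtain ⟨f₀, h1, h2⟩ := cyc_core hB.amg N hL n (by omega) (by omega) P (ty 𝔹 (p 0)) hne ht
  obtain ⟨f, hf1, hf2, hf3⟩ := cyc_inj hB.amg n (by omega) P hne f₀ h1 h2 (n - 2) (by omega)
  have hlast : f (n - 1) ≠ f 0 := by
    intro h
    rw [tp_iff] at hf2
    exact hne (n - 1) ((hf2.1 0 1).1 h)
  have hinj : ∀ i i', i < n → i' < n → f i = f i' → i = i' := by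
    intro i i' hi hi' h
    by_contra hne'
    by_cases hi1 : 1 ≤ i ∧ i ≤ n - 2
    · exact hf3 i hi1.1 hi1.2 i' hi' (Ne.symm hne') h
    · by_cases hi2 : 1 ≤ i' ∧ i' ≤ n - 2
      · exact hf3 i' hi2.1 hi2.2 i hi hne' h.symm
      · have h3 : i = 0 ∨ i = n - 1 := by omega
        have h4 : i' = 0 ∨ i' = n - 1 := by omega
        rcases h3 with h3 | h3 <;> rcases h4 with h4 | h4
        · omega
        · rw [h3, h4] at h
          exact hlast h.symm
        · rw [h3, h4] at h
          exact hlast h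
        · omega
  refine ⟨fun i => f i, fun i i' h => Fin.ext (hinj i i' (by rw [hn]; exact i.isLt)
    (by rw [hn]; exact i'.isLt) h), fun i i' hii => ⟨fun hi => ?_, fun hi => ?_⟩, ?_⟩
  · have hlt := i'.isLt
    have h3 := hf1 i (by omega)
    rw [hP2 i (by omega) hi] at h3
    show tp 𝔹 ![f i, f i'] = _
    rw [hii]
    exact h3
  · have hlt := i'.isLt
    have h3 := hf1 i (by omega)
    rw [hP3 i (by omega) (by omega)] at h3
    show tp 𝔹 ![f i', f i] = _
    rw [hii]
    exact tp_swap h3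
  · show tp 𝔹 ![f ((0 : Fin (2 * (N + 1) + 2)) : ℕ), f (2 * (N + 1) + 1)] = _
    have e0 : ((0 : Fin (2 * (N + 1) + 2)) : ℕ) = 0 := rfl
    have e1 : n - 1 = 2 * (N + 1) + 1 := by omega
    rw [hP1, e1] at hf2
    rw [e0]
    exact tp_swap hf2

end Pool.Agent.H19.KR
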