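import Pool.Agent.H44.KR.Targets

/-!
# Kernels of canonical maps for structures with local completions: jumps (JMP)
-/

set_option autoImplicit false

namespace Pool.Agent.H19.KR

open Pool.Agent.H68.BP Pool.Agent.H58.SF Pool.Agent.H53.NR Pool.Agent.H53.GM Pool.Agent.H44.KR
open Pool.Agent.H57.LCI (LocalCompletions Pre Realizes)
open Pool.Agent.H57.AR (tp ty)
open Pool.Agent.H57.EQ (Cx)
open Function
open Classical

theorem jmp_rk {J X : Type} [Finite J] (a : J → X) : ∃ rk : X → ℕ, RkI rk a := by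
  have h : (Set.range a).Finite := Set.finite_range a
  obtain ⟨f, hf⟩ := Set.countable_iff_exists_injOn.1 h.countable
  exact ⟨f, fun i j hij => hf ⟨i, rfl⟩ ⟨j, rfl⟩ hij⟩

/-- the stage of the moving letter is not zero afterwards -/
theorem sh_mov (j : ℕ) (d : Fin 2) (h : (d : ℕ) = j % 2) : sh (j + 1) d ≠ 0 := by
  unfold sh
  rcases d with ⟨v, hv⟩
  have h' : v = j % 2 := h
  interval_cases v
  · show (j + 1 + 1) / 2 ≠ 0
    omega
  · show (j + 1) / 2 ≠ 0
    omega

/-- the stage of the other letter does not change -/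
theorem sh_fix (j : ℕ) (d : Fin 2) (h : (d : ℕ) ≠ j % 2) : sh (j + 1) d = sh j d := by
  unfold sh
  rcases d with ⟨v, hv⟩
  have h' : v ≠ j % 2 := h
  interval_cases v
  · show (j + 1 + 1) / 2 = (j + 1) / 2
    omega
  · show (j + 1) / 2 = j / 2
    omega

theorem fin2_eq (j : ℕ) (d d' : Fin 2) (h : (d : ℕ) ≠ j % 2) (h' : (d' : ℕ) ≠ j % 2) : d = d' := by
  apply Fin.ext
  omega

theorem ent_lr {r : Fin 3} {j : ℕ} {c c' : Fin 6} (h : Ent r j c c') : lr r c = lr r c' := by
  rcases h with h | h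
  · rw [h]
  · exact h.1

/-- the assignment of the two maps to the positions -/
theorem jmp_la (r : Fin 3) (j : ℕ) (e e' : Fin 6)
    (h : ∀ c, Ent r j e c → ¬ Ent r (j + 1) e' c) : ∃ (la : Fin 6 → Fin 2) (k : Fin 2),
    (∀ c, (lr r c : ℕ) = j % 2 → la c = k) ∧ Sat r j la ∧ Sat r (j + 1) la ∧
    (∀ c, Ent r j e c → la c = 0) ∧ ∀ c, Ent r (j + 1) e' c → la c = 1 := by
  have hne : ¬ Ent r (j + 1) e' e := h e (Or.inl rfl)
  by_cases h1 : (lr r e : ℕ) = j % 2
  · have h2 : (lr r e' : ℕ) ≠ j % 2 := by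
      intro h2
      apply hne
      refine Or.inr ⟨Fin.ext (h2.trans h1.symm), sh_mov j _ h2⟩
    have hs : ∀ c c', lr r c = lr r c' → (if (lr r c : ℕ) = j % 2 then (0 : Fin 2) else 1) =
        if (lr r c' : ℕ) = j % 2 then 0 else 1 := fun c c' h3 => by rw [h3]
    refine ⟨fun c => if (lr r c : ℕ) = j % 2 then 0 else 1, 0, fun c hc => if_pos hc,
      fun c c' hc => hs c c' (ent_lr hc), fun c c' hc => hs c c' (ent_lr hc), fun c hc => ?_,
      fun c hc => ?_⟩
    · rw [ent_lr hc] at h1
      exact if_pos h1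
    · rw [ent_lr hc] at h2
      exact if_neg h2
  · by_cases h2 : (lr r e' : ℕ) = j % 2
    · have hs : ∀ c c', lr r c = lr r c' → (if (lr r c : ℕ) = j % 2 then (1 : Fin 2) else 0) =
          if (lr r c' : ℕ) = j % 2 then 1 else 0 := fun c c' h3 => by rw [h3]
      refine ⟨fun c => if (lr r c : ℕ) = j % 2 then 1 else 0, 1, fun c hc => if_pos hc,
        fun c c' hc => hs c c' (ent_lr hc), fun c c' hc => hs c c' (ent_lr hc), fun c hc => ?_,
        fun c hc => ?_⟩
      · rw [ent_lr hc] at h1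
        exact if_neg h1
      · rw [ent_lr hc] at h2
        exact if_pos h2
    · have hst : sh (j + 1) (lr r e) = 0 := by
        by_contra h3
        apply hne
        rw [fin2_eq j (lr r e) (lr r e') h1 h2] at h3
        exact Or.inr ⟨(fin2_eq j _ _ h2 h1), h3⟩
      have hst' : sh j (lr r e) = 0 := by rw [← sh_fix j _ h1, hst]
      have hcl : ∀ (i : ℕ) (c c' : Fin 6), i = j ∨ i = j + 1 → Ent r i c c' →
          (if c = e then (0 : Fin 2) else 1) = if c' = e then 0 else 1 := by
        intro i c c' hi hc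
        rcases hc with hc | hc
        · rw [hc]
        · have h4 : ∀ c'', lr r c = lr r c'' → c'' ≠ e := by
            intro c'' h5 h6
            apply hc.2
            rw [h5, h6]
            rcases hi with hi | hi
            · rw [hi]
              exact hst'
            · rw [hi]
              exact hst
          rw [if_neg (h4 c rfl), if_neg (h4 c' hc.1)]
      refine ⟨fun c => if c = e then 0 else 1, 1, fun c hc => if_neg ?_,
        fun c c' hc => hcl j c c' (Or.inl rfl) hc, fun c c' hc => hcl (j + 1) c c' (Or.inr rfl) hc,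
        fun c hc => ?_, fun c hc => if_neg ?_⟩
      · intro h3
        rw [h3] at hc
        exact h1 hc
      · rcases hc with hc | hc
        · exact if_pos hc.symm
        · exact absurd hst' hc.2
      · intro h3
        rw [h3] at hc
        exact hne hc

theorem pf_JMP : T_JMP := by
  intro V σ ρ 𝔸 𝔹 L Φ hC r j h0 h1 h2 θ hθ hθ' s e e' hJ hJ' hee hmix
  obtain ⟨la, k, hk, hs0, hs1, hl0, hl1⟩ := jmp_la r j e e' hee
  refine ⟨k, fun W hW G M => ?_⟩
  obtain ⟨jj, hjj⟩ : ∃ jj : W → ℕ, jj = fun w => if G k w ∈ M then j + 1 else j := ⟨_, rfl⟩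
  have hM1 : ∀ w, G k w ∈ M → jj w = j + 1 := by
    intro w h
    rw [hjj]
    exact if_pos h
  have hM0 : ∀ w, G k w ∉ M → jj w = j := by
    intro w h
    rw [hjj]
    exact if_neg h
  have hor : ∀ w, (G k w ∉ M ∧ jj w = j) ∨ (G k w ∈ M ∧ jj w = j + 1) := by
    intro w
    by_cases h : G k w ∈ M
    · exact Or.inr ⟨h, hM1 w h⟩
    · exact Or.inl ⟨h, hM0 w h⟩
  have hplf : ∀ w, Plf L r (jj w) := by
    intro w
    rcases hor w with h | h
    · rw [h.2]
      exact h0
    · rw [h.2]
      exact h1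
  have hadj : ∀ w w' c c', Adj (reg (plc L r (jj w) c)) (reg (plc L r (jj w') c')) := by
    intro w w' c c'
    rcases hor w with h | h <;> rcases hor w' with h' | h' <;> rw [h.2, h'.2]
    · exact h0.adj c c'
    · exact h2.adj c c'
    · exact h2.adj' c c'
    · exact h1.adj c c'
  obtain ⟨rk, hrk⟩ := jmp_rk (fun q : W × Fin 6 => blk L r (jj q.1) (fun c => G (la c) q.1) q.2)
  have hmixed : ∀ (Z : Sh) (w w' : W) (c c' : Fin 6), G k w ∉ M → G k w' ∈ M →
      inSh Z (plc L r j c) → inSh Z (plc L r (j + 1) c') → G (la c) w = G (la c') w' →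
      plc L r j c = plc L r (j + 1) c' := by
    intro Z w w' c c' hw hw' hc hc' hG
    have h3 := h2.sh Z c c' hc hc'
    rw [h2.eq c c']
    refine ⟨h3, fun h4 => ?_⟩
    have h5 : (lr r c' : ℕ) = j % 2 := by rw [← ent_lr h3, h4]
    rw [hk c h4, hk c' h5] at hG
    rw [hG] at hw
    exact hw hw'
  have hcfg : Cfg r (fun w => blk L r (jj w) (fun c => G (la c) w)) rk := by
    refine ⟨fun w c => (hplf w).at_ c, fun w w' c => hadj w w' c c, ?_, hrk⟩
    intro Z w w' c c' hc hc' hG
    show plc L r (jj w) c = plc L r (jj w') c'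
    have hc1 : inSh Z (plc L r (jj w) c) := hc
    have hc2 : inSh Z (plc L r (jj w') c') := hc'
    have hG' : G (la c) w = G (la c') w' := hG
    rcases hor w with h | h <;> rcases hor w' with h' | h' <;> rw [h.2] at hc1 ⊢ <;>
      rw [h'.2] at hc2 ⊢
    · exact (h0.eq c c').2 (h0.sh Z c c' hc1 hc2)
    · exact hmixed Z w w' c c' h.1 h'.1 hc1 hc2 hG'
    · exact (hmixed Z w' w c' c h'.1 h.1 hc2 hc1 hG'.symm).symm
    · exact (h1.eq c c').2 (h1.sh Z c c' hc1 hc2)
  obtain ⟨ψ, hψ, hcol⟩ := hC.out r W _ rk hcfg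
  have hcol' : ∀ w w', col2 𝔹 (ψ w) (ψ w') = Fv 𝔹 Φ rk (blk L r (jj w) (fun c => G (la c) w))
      (blk L r (jj w') (fun c => G (la c) w')) := by
    intro w w'
    refine hcol w w' ?_
    intro p q
    rcases p with p | p <;> rcases q with q | q
    · exact hadj w w p q
    · exact hadj w w' p q
    · exact hadj w' w p q
    · exact hadj w' w' p q
  have hR : ∀ w w', RkI rk (Sum.elim (blk L r (jj w) (fun c => G (la c) w))
      (blk L r (jj w') (fun c => G (la c) w'))) := by
    intro w w'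
    rintro (p | p) (q | q) h
    · exact hrk (w, p) (w, q) h
    · exact hrk (w, p) (w', q) h
    · exact hrk (w', p) (w, q) h
    · exact hrk (w', p) (w', q) h
  have hbl0 : ∀ w, OfS 𝔹 s G w → BlS 𝔹 r j s (fun c => G (la c) w) := fun w hw =>
    ⟨fun c c' hc => by
      show G (la c) w = G (la c') w
      rw [hs0 c c' hc], fun c => hw (la c)⟩
  have hbl1 : ∀ w, OfS 𝔹 s G w → BlS 𝔹 r (j + 1) s (fun c => G (la c) w) := fun w hw =>
    ⟨fun c c' hc => by
      show G (la c) w = G (la c') w
      rw [hs1 c c' hc], fun c => hw (la c)⟩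
  -- different shapes have different values
  have hdiff : ∀ w w', OfS 𝔹 s G w → OfS 𝔹 s G w' → G k w ∉ M → G k w' ∈ M → ψ w ≠ ψ w' := by
    intro w w' hw hw' hm hm' heq
    have h3 := congrArg (fun y : Yc ρ => y.1) (hcol' w w')
    rw [hM0 w hm, hM1 w' hm'] at h3
    have h4 : (ψ w = ψ w') = (Fv 𝔹 Φ rk (blk L r j (fun c => G (la c) w))
      (blk L r (j + 1) (fun c => G (la c) w'))).1 := h3
    refine hmix _ _ rk (hbl0 w hw) (hbl1 w' hw') ?_ (h4 ▸ heq)
    obtain ⟨f, hf⟩ : ∃ f : Fin 2 → W, f = fun i => if i = 0 then w else w' := ⟨_, rfl⟩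
    have hb : (fun i : Fin 2 => if i = 0 then blk L r j (fun c => G (la c) w) else
        blk L r (j + 1) (fun c => G (la c) w')) =
        fun i => blk L r (jj (f i)) (fun c => G (la c) (f i)) := by
      funext i
      rw [hf]
      by_cases hi : i = 0
      · simp only [if_pos hi, hM0 w hm]
      · simp only [if_neg hi, hM1 w' hm']
    rw [hb]
    exact ⟨fun i c => hcfg.pos (f i) c, fun i i' c => hcfg.adj (f i) (f i') c,
      fun Z i i' c c' hc hc' hG => hcfg.inj Z (f i) (f i') c c' hc hc' hG,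
      fun p q hpq => hrk (f p.1, p.2) (f q.1, q.2) hpq⟩
  refine ⟨ψ, ?_, ?_, ?_⟩
  · intro l z h
    exact hψ l z fun c => h (la c)
  · intro w hw
    have h3 := congrArg (fun y : Yc ρ => y.2.1) (hcol' w w)
    have h4 : ty 𝔹 (ψ w) = (Fv 𝔹 Φ rk (blk L r (jj w) (fun c => G (la c) w))
      (blk L r (jj w) (fun c => G (la c) w))).2.1 := h3
    have hRw : RkI rk (blk L r (jj w) (fun c => G (la c) w)) := fun p q hpq =>
      hrk (w, p) (w, q) hpq
    rw [h4]
    rcases hor w with h | h <;> rw [h.2] at hRw ⊢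
    · exact hθ s _ rk (hbl0 w hw) hRw
    · exact hθ' s _ rk (hbl1 w hw) hRw
  · intro w w' hw hw'
    have h3 := congrArg (fun y : Yc ρ => y.1) (hcol' w w')
    have h4 : (ψ w = ψ w') = (Fv 𝔹 Φ rk (blk L r (jj w) (fun c => G (la c) w))
      (blk L r (jj w') (fun c => G (la c) w'))).1 := h3
    have hRw := hR w w'
    rcases hor w with h | h <;> rcases hor w' with h' | h'
    · rw [h.2, h'.2] at h4 hRw
      rw [h4, hJ.2 _ _ rk (hbl0 w hw) (hbl0 w' hw') hRw]
      constructor
      · intro h5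
        have h6 := h5 e (Or.inl rfl)
        rw [hl0 e (Or.inl rfl)] at h6
        exact Or.inl ⟨h.1, h'.1, h6⟩
      · rintro (h5 | h5)
        · intro c hc
          rw [hl0 c hc]
          exact h5.2.2
        · exact absurd h5.1 h.1
    · constructor
      · intro h5
        exact absurd h5 (hdiff w w' hw hw' h.1 h'.1)
      · rintro (h5 | h5)
        · exact absurd h'.1 h5.2.1
        · exact absurd h5.1 h.1
    · constructor
      · intro h5
        exact absurd h5.symm (hdiff w' w hw' hw h'.1 h.1)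
      · rintro (h5 | h5)
        · exact absurd h.1 h5.1
        · exact absurd h5.2.1 h'.1
    · rw [h.2, h'.2] at h4 hRw
      rw [h4, hJ'.2 _ _ rk (hbl1 w hw) (hbl1 w' hw') hRw]
      constructor
      · intro h5
        have h6 := h5 e' (Or.inl rfl)
        rw [hl1 e' (Or.inl rfl)] at h6
        exact Or.inr ⟨h.1, h'.1, h6⟩
      · rintro (h5 | h5)
        · exact absurd h.1 h5.1
        · intro c hc
          rw [hl1 c hc]
          exact h5.2.2

end Pool.Agent.H19.KR
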