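import Pool.Agent.H44.KR.Targets

/-!
# Kernels of canonical maps for structures with local completions: the Ramsey property (RMO)
-/

set_option autoImplicit false

namespace Pool.Agent.H19.KR

open Pool.Agent.H68.BP Pool.Agent.H58.SF Pool.Agent.H53.NR Pool.Agent.H53.GM Pool.Agent.H44.KR
open Pool.Agent.H57.LCI (LocalCompletions Pre Realizes)
open Pool.Agent.H57.AR (tp ty)
open Pool.Agent.H57.EQ (Cx)
open Function
open Classical

/-- an order isomorphism with an initial segment -/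
theorem exists_lam {X κ : Type} [Finite X] [LinearOrder κ] (key : X → κ) (hk : Injective key) :
    ∃ lam : X → Fin (Nat.card X), ∀ x y, lam x < lam y ↔ key x < key y := by
  have := Fintype.ofFinite X
  obtain ⟨S, hS⟩ : ∃ S : X → Finset X, ∀ x y, y ∈ S x ↔ key y < key x :=
    ⟨fun x => Finset.univ.filter fun y => key y < key x, fun x y => by simp⟩
  have hlt : ∀ x, (S x).card < Nat.card X := by
    intro x
    rw [Nat.card_eq_fintype_card]
    refine Finset.card_lt_univ_of_notMem (x := x) ?_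
    rw [hS]
    exact lt_irrefl _
  have hmono : ∀ x y, key x < key y → (S x).card < (S y).card := by
    intro x y h
    refine Finset.card_lt_card ⟨fun z hz => ?_, fun hsub => ?_⟩
    · rw [hS] at *
      exact hz.trans h
    · have h1 : x ∈ S x := hsub ((hS y x).2 h)
      rw [hS] at h1
      exact lt_irrefl _ h1
  refine ⟨fun x => ⟨(S x).card, hlt x⟩, fun x y => ?_⟩
  rw [Fin.mk_lt_mk]
  refine ⟨fun h => ?_, hmono x y⟩
  rcases lt_trichotomy (key x) (key y) with h1 | h1 | h1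
  · exact h1
  · rw [hk h1] at h
    exact absurd h (lt_irrefl _)
  · exact absurd (hmono y x h1) (not_lt_of_gt h)

section

variable {V Q W : Type} {ρ : Sig} {L : ℕ}

/-- the graded structure of a system -/
def toGS (pl : Q → Pl L) (E : Sy Q (Str ρ Q) W) : GS ρ L W :=
  ⟨fun x => pl (E.pt x), fun g => ∃ κ, E.gd g κ,
    fun l z => ∃ g κ, E.gd g κ ∧ (∀ i, z i ∈ g) ∧ κ l (fun i => E.pt (z i))⟩

theorem toGS_st {𝔹 : Str ρ V} {pl : Q → Pl L} {E : Sy Q (Str ρ Q) W}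
    (hE : IsSys (kC 𝔹 L pl) E) {g : Finset W} {κ : Str ρ Q} (hg : E.gd g κ) (l : Fin ρ.m)
    (z : Fin (ρ.ar l) → W) (hz : ∀ i, z i ∈ g) :
    (toGS pl E).st l z ↔ κ l (fun i => E.pt (z i)) := by
  constructor
  · rintro ⟨g₂, κ₂, hg₂, hz₂, h⟩
    obtain ⟨h0, hh0⟩ : ∃ h0 : Finset W, h0 = Finset.univ.image z := ⟨_, rfl⟩
    have hmem : ∀ i, z i ∈ h0 := fun i => by
      rw [hh0]
      exact Finset.mem_image_of_mem z (Finset.mem_univ i)
    have hs1 : h0 ⊆ g := by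
      intro x hx
      rw [hh0] at hx
      obtain ⟨i, -, hi⟩ := Finset.mem_image.1 hx
      rw [← hi]
      exact hz i
    have hs2 : h0 ⊆ g₂ := by
      intro x hx
      rw [hh0] at hx
      obtain ⟨i, -, hi⟩ := Finset.mem_image.1 hx
      rw [← hi]
      exact hz₂ i
    have h1 := hE.dn g κ h0 hg hs1
    have h2 := hE.dn g₂ κ₂ h0 hg₂ hs2
    have h3 := hE.un h0 _ _ h1 h2
    have h4 := congrFun (congrFun h3 l) (fun i => E.pt (z i))
    have h5 : (κ l (fun i => E.pt (z i)) ∧ ∀ i, E.pt (z i) ∈ h0.image E.pt) =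
      (κ₂ l (fun i => E.pt (z i)) ∧ ∀ i, E.pt (z i) ∈ h0.image E.pt) := h4
    have h6 : κ₂ l (fun i => E.pt (z i)) ∧ ∀ i, E.pt (z i) ∈ h0.image E.pt :=
      ⟨h, fun i => Finset.mem_image_of_mem _ (hmem i)⟩
    rw [← h5] at h6
    exact h6.1
  · intro h
    exact ⟨g, κ, hg, hz, h⟩

theorem toGS_good {𝔹 : Str ρ V} {pl : Q → Pl L} {E : Sy Q (Str ρ Q) W}
    (hE : IsSys (kC 𝔹 L pl) E) (hG : kG 𝔹 L pl W E) : Good 𝔹 (toGS pl E) := by
  refine ⟨fun g g' hg hg' => ?_, fun g hg x hx y hy => ?_, fun Z => ?_⟩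
  · obtain ⟨κ, hκ⟩ := hg
    exact ⟨_, hE.dn g κ g' hκ hg'⟩
  · obtain ⟨κ, hκ⟩ := hg
    exact (hE.ok g κ hκ).1 _ (Finset.mem_image_of_mem _ hx) _ (Finset.mem_image_of_mem _ hy)
  · obtain ⟨f, hf⟩ := hG Z
    refine ⟨f, fun g hg => ?_⟩
    obtain ⟨κ, hκ⟩ := hg
    obtain ⟨h1, h2⟩ := hf g κ hκ
    refine ⟨fun x hx y hy hxy => ?_, fun l z hz => ?_⟩
    · exact hE.tr g κ hκ hx.1 hy.1 (h1 x hx y hy hxy)
    · rw [h2 l z hz]
      exact (toGS_st hE hκ l z fun i => (hz i).1).symm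

end

theorem pf_RMO (hRAM : Pool.Agent.H53.GM.T_RAM) (hIDX : T_IDX) (hRTP : T_RTP) : T_RMO := by
  intro V ρ 𝔹 hB N L hAx X J Y _ _ _ _ C rk hC hSg hrk
  rcases isEmpty_or_nonempty Y with hY | hY
  · obtain ⟨x0⟩ := ‹Nonempty X›
    exact ⟨X, inferInstance, C, hC, fun F => (hY.false (F fun _ => x0)).elim⟩
  have := Fintype.ofFinite J
  have : Finite (Str ρ J) := by
    unfold Str
    infer_instance
  obtain ⟨R, hR⟩ := hRTP J (Kd ρ L J → Y) (Nat.card X)
  obtain ⟨c, hc⟩ : ∃ c : Pl L → ℕ, Injective c := Countable.exists_injective_nat _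
  obtain ⟨lam, hlam⟩ := exists_lam (fun x => toLex (c (C.pl x), rk x)) (fun x y h => hrk (by
    have h1 := congrArg (fun p : ℕ ×ₗ ℕ => (ofLex p).2) h
    exact h1))
  have hlami : Injective lam := by
    intro x y h
    by_contra hne
    have h1 := hlam x y
    have h2 := hlam y x
    rw [h] at h1 h2
    have h3 := fun h4 => lt_irrefl _ (h1.2 h4)
    have h5 := fun h4 => lt_irrefl _ (h2.2 h4)
    rcases lt_trichotomy (toLex (c (C.pl x), rk x)) (toLex (c (C.pl y), rk y)) with h6 | h6 | h6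
    · exact h3 h6
    · apply hne
      apply hrk
      exact congrArg (fun p : ℕ ×ₗ ℕ => (ofLex p).2) h6
    · exact h5 h6
  obtain ⟨Ξ, hΞ⟩ : ∃ Ξ : Set (X → Fin R), Ξ = {ξ | Injective ξ} := ⟨_, rfl⟩
  have hΞn : Ξ.Nonempty := by
    obtain ⟨e, he, -⟩ := hR fun _ _ => hY.some
    refine ⟨fun x => e (lam x), ?_⟩
    rw [hΞ]
    exact he.injective.comp hlami
  have : Finite (Str ρ (Pl L × Fin R)) := by
    unfold Str
    infer_instance
  have : Nonempty (Ξ × X) := by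
    obtain ⟨ξ, hξ⟩ := hΞn
    obtain ⟨x0⟩ := ‹Nonempty X›
    exact ⟨(⟨ξ, hξ⟩, x0)⟩
  obtain ⟨hS, hG, h0⟩ := hIDX V ρ 𝔹 hB L R X C Ξ hC hSg hΞn (fun ξ hξ x y _ h => by
    rw [hΞ] at hξ
    exact hξ h)
  obtain ⟨W, hW, E, hE, hGE, hRam⟩ := hRAM (Pl L × Fin R) (Str ρ (Pl L × Fin R))
    (kC 𝔹 L Prod.fst) N (kG 𝔹 L Prod.fst) (hAx _ _) (Ξ × X) ((J → Pl L × Fin R) → Y)
    (cpy C R Ξ) (fun _ _ => False) hS hG h0
  refine ⟨W, hW, toGS Prod.fst E, toGS_good hE hGE, fun F => ?_⟩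
  -- the colouring of the guards
  obtain ⟨χ, hχ⟩ : ∃ χ : Finset W → (J → Pl L × Fin R) → Y, ∀ g κ, E.gd g κ → ∀ b : J → W,
      (∀ j, b j ∈ g) → χ g (fun j => E.pt (b j)) = F b := by
    refine ⟨fun g q => if h : ∃ b : J → W, (∀ j, b j ∈ g) ∧ ∀ j, E.pt (b j) = q j then
      F h.choose else hY.some, fun g κ hg b hb => ?_⟩
    have h : ∃ b' : J → W, (∀ j, b' j ∈ g) ∧ ∀ j, E.pt (b' j) = E.pt (b j) :=
      ⟨b, hb, fun j => rfl⟩
    show (if h : ∃ b' : J → W, (∀ j, b' j ∈ g) ∧ ∀ j, E.pt (b' j) = E.pt (b j) then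
      F h.choose else hY.some) = F b
    rw [dif_pos h]
    congr 1
    funext j
    exact hE.tr g κ hg (h.choose_spec.1 j) (hb j) (h.choose_spec.2 j)
  obtain ⟨φ', ν, hφ, hν⟩ := hRam χ
  obtain ⟨D, hD⟩ : ∃ D : (J → Fin R) → Kd ρ L J → Y, D = fun i K =>
      ν (Finset.univ.image (fun j => (K.1 j, i j)))
        (fun l q => ∃ z : Fin (ρ.ar l) → J, K.2.2.2 l z ∧ q = fun a => (K.1 (z a), i (z a)))
        (fun j => (K.1 j, i j)) := ⟨_, rfl⟩
  obtain ⟨e, he, heD⟩ := hR D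
  obtain ⟨ξ₀, hξ₀⟩ : ∃ ξ₀ : X → Fin R, ξ₀ = fun x => e (lam x) := ⟨_, rfl⟩
  have hξi : Injective ξ₀ := by
    rw [hξ₀]
    exact he.injective.comp hlami
  have hξm : ξ₀ ∈ Ξ := by
    rw [hΞ]
    exact hξi
  obtain ⟨ξ, hξ⟩ : ∃ ξ : Ξ, ξ = ⟨ξ₀, hξm⟩ := ⟨_, rfl⟩
  have hξv : ξ.1 = ξ₀ := by rw [hξ]
  obtain ⟨φ, hφd⟩ : ∃ φ : X → W, ∀ x, φ x = φ' (ξ, x) := ⟨_, fun x => rfl⟩
  -- the label of the copy
  obtain ⟨lb, hlb⟩ : ∃ lb : Finset X → Str ρ (Pl L × Fin R), ∀ g l q, lb g l q ↔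
      ∃ z : Fin (ρ.ar l) → X, (∀ i, z i ∈ g) ∧ (∃ Z, ∀ i, inSh Z (C.pl (z i))) ∧ C.st l z ∧
        q = fun i => (C.pl (z i), ξ₀ (z i)) := ⟨fun g l q => _, fun g l q => Iff.rfl⟩
  have hcg : ∀ g, C.gd g → (cpy C R Ξ).gd (g.image (fun x => (ξ, x))) (lb g) := by
    intro g hg
    refine ⟨ξ, g, hg, rfl, ?_⟩
    funext l q
    rw [eq_iff_iff, hlb, hξv]
  have hEg : ∀ g, C.gd g → E.gd (g.image φ) (lb g) := by
    intro g hg
    have h1 := (hφ _ _ (hcg g hg)).1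
    have h2 : (g.image (fun x => (ξ, x))).image φ' = g.image φ := by
      ext y
      simp only [Finset.mem_image]
      constructor
      · rintro ⟨p, ⟨x, hx, rfl⟩, rfl⟩
        exact ⟨x, hx, hφd x⟩
      · rintro ⟨x, hx, rfl⟩
        exact ⟨(ξ, x), ⟨x, hx, rfl⟩, (hφd x).symm⟩
    rw [h2] at h1
    exact h1
  have hpt : ∀ x, E.pt (φ x) = (C.pl x, ξ₀ x) := by
    intro x
    have h1 := (hφ _ _ (hcg {x} (hSg x))).2 (ξ, x)
      (Finset.mem_image_of_mem _ (Finset.mem_singleton_self x))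
    rw [hφd x, h1]
    show (C.pl x, ξ.1 x) = _
    rw [hξv]
  have hst : ∀ g, C.gd g → ∀ (l : Fin ρ.m) (z : Fin (ρ.ar l) → X), (∀ i, z i ∈ g) →
      ((toGS Prod.fst E).st l (fun i => φ (z i)) ↔ lb g l (fun i => (C.pl (z i), ξ₀ (z i)))) := by
    intro g hg l z hz
    rw [toGS_st hE (hEg g hg) l (fun i => φ (z i)) fun i => Finset.mem_image_of_mem _ (hz i)]
    simp only [hpt]
  -- the values
  have hval : ∀ a : J → X, C.tup a → F (fun j => φ (a j)) =
      D (fun j => ξ₀ (a j)) (kd C.pl C.st rk a) := by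
    rintro a ⟨g, hg, ha⟩
    obtain ⟨g₁, hg₁⟩ : ∃ g₁ : Finset X, g₁ = Finset.univ.image a := ⟨_, rfl⟩
    have hmem : ∀ j, a j ∈ g₁ := fun j => by
      rw [hg₁]
      exact Finset.mem_image_of_mem a (Finset.mem_univ j)
    have hmem' : ∀ x ∈ g₁, ∃ j, a j = x := fun x hx => by
      rw [hg₁] at hx
      obtain ⟨j, -, hj⟩ := Finset.mem_image.1 hx
      exact ⟨j, hj⟩
    have hgd : C.gd g₁ := hC.dn g g₁ hg (by
      intro x hx
      obtain ⟨j, hj⟩ := hmem' x hx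
      rw [← hj]
      exact ha j)
    have h1 := hν _ _ (hcg g₁ hgd)
    have h2 : (g₁.image (fun x => (ξ, x))).image φ' = g₁.image φ := by
      ext y
      simp only [Finset.mem_image]
      constructor
      · rintro ⟨p, ⟨x, hx, rfl⟩, rfl⟩
        exact ⟨x, hx, hφd x⟩
      · rintro ⟨x, hx, rfl⟩
        exact ⟨(ξ, x), ⟨x, hx, rfl⟩, (hφd x).symm⟩
    obtain ⟨α, hα⟩ : ∃ α : Finset (Pl L × Fin R),
        α = Finset.univ.image (fun j => (C.pl (a j), ξ₀ (a j))) := ⟨_, rfl⟩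
    have h3 : ∀ inst : DecidableEq (Pl L × Fin R),
        @Finset.image _ _ inst (cpy C R Ξ).pt (g₁.image (fun x => (ξ, x))) = α := by
      intro inst
      rw [hα]
      ext y
      simp only [Finset.mem_image, Finset.mem_univ, true_and]
      constructor
      · rintro ⟨p, ⟨x, hx, rfl⟩, rfl⟩
        obtain ⟨j, hj⟩ := hmem' x hx
        refine ⟨j, ?_⟩
        show _ = (C.pl x, ξ.1 x)
        rw [hξv, hj]
      · rintro ⟨j, rfl⟩
        refine ⟨(ξ, a j), ⟨a j, hmem j, rfl⟩, ?_⟩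
        show (C.pl (a j), ξ.1 (a j)) = _
        rw [hξv]
    have h4 : lb g₁ = fun l q => ∃ z : Fin (ρ.ar l) → J, (kd C.pl C.st rk a).2.2.2 l z ∧
        q = fun b => ((kd C.pl C.st rk a).1 (z b), ξ₀ (a (z b))) := by
      funext l q
      rw [eq_iff_iff, hlb]
      constructor
      · rintro ⟨z, hz, hZ, hz', hq⟩
        choose z' hz1 using fun i => hmem' (z i) (hz i)
        have e1 : z = fun i => a (z' i) := funext fun i => (hz1 i).symm
        refine ⟨z', ⟨?_, ?_⟩, ?_⟩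
        · rw [e1] at hZ
          exact hZ
        · rw [e1] at hz'
          exact hz'
        · rw [hq, e1]
          rfl
      · rintro ⟨z', ⟨hZ, hz'⟩, hq⟩
        exact ⟨fun i => a (z' i), fun i => hmem _, hZ, hz', hq⟩
    rw [h2, h3, h4] at h1
    have h5 := congrFun h1 (fun j => (C.pl (a j), ξ₀ (a j)))
    have h6 := hχ (g₁.image φ) _ (hEg g₁ hgd) (fun j => φ (a j))
      (fun j => Finset.mem_image_of_mem φ (hmem j))
    have h7 : (fun j => E.pt (φ (a j))) = fun j => (C.pl (a j), ξ₀ (a j)) :=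
      funext fun j => hpt (a j)
    rw [h7] at h6
    rw [← h6, h5, hD, hα]
    rfl
  refine ⟨φ, ⟨fun x => ?_, fun g hg => ⟨_, hEg g hg⟩, fun g hg x hx y hy hxy => ?_,
    fun g hg l z hz hZ => ?_⟩, fun a a' ha ha' hk => ?_⟩
  · show (E.pt (φ x)).1 = C.pl x
    rw [hpt]
  · apply hξi
    have h1 := congrArg (fun w => (E.pt w).2) hxy
    simp only [hpt] at h1
    exact h1
  · rw [hst g hg l z hz, hlb]
    constructor
    · rintro ⟨z', -, -, hz', hq⟩
      have e1 : z = z' := by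
        funext i
        apply hξi
        exact congrArg Prod.snd (congrFun hq i)
      rw [e1]
      exact hz'
    · intro h
      exact ⟨z, hz, hZ, h, rfl⟩
  · rw [hval a ha, hval a' ha', hk]
    have hi : ∀ j j', lam (a j) < lam (a j') ↔ lam (a' j) < lam (a' j') := by
      intro j j'
      have k1 : ∀ j, C.pl (a j) = C.pl (a' j) := fun j => congrFun (congrArg Prod.fst hk) j
      have k2 : ∀ j j', (C.pl (a j) = C.pl (a j') ∧ rk (a j) < rk (a j')) =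
          (C.pl (a' j) = C.pl (a' j') ∧ rk (a' j) < rk (a' j')) := fun j j' =>
        congrFun (congrFun (congrArg (fun K : Kd ρ L J => K.2.2.1) hk) j) j'
      rw [hlam, hlam, Prod.Lex.toLex_lt_toLex, Prod.Lex.toLex_lt_toLex]
      show c (C.pl (a j)) < c (C.pl (a j')) ∨
          c (C.pl (a j)) = c (C.pl (a j')) ∧ rk (a j) < rk (a j') ↔
        c (C.pl (a' j)) < c (C.pl (a' j')) ∨
          c (C.pl (a' j)) = c (C.pl (a' j')) ∧ rk (a' j) < rk (a' j')
      have k3 := k2 j j'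
      rw [hc.eq_iff, hc.eq_iff, k3, k1 j, k1 j']
    have h1 := heD (fun j => lam (a j)) (fun j => lam (a' j)) hi
    rw [hξ₀]
    exact congrFun h1 _

end Pool.Agent.H19.KR
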